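import Pool.Agent.X157.E.Coll

set_option autoImplicit false

/-!
# General collisions of eleven and of thirteen fat points: the excess is at most one

Let `r` be eleven or thirteen, `m` any multiplicity and `d₀ = ⌊√r m⌋ + 1`. For every field `k` (of any
characteristic) and all `(c, a)` outside a hypersurface, the forms of degree `d` through the subscheme
of the plane with ideal `(y - (a₀ + a₁ x + ... + a_(r-1) x ^ (r-1)), (x - c) ^ r) ^ m` have the
expected dimension in every degree `d ≠ d₀`, and in degree `d₀` they have the expected dimension or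
their dimension is ONE instead of zero; the second case can only occur if `3` divides `d₀`,
`√r m < d₀`, `2 d₀ + 3 < √r (2 m + 1)` and `binom (d₀ + 2, 2) ≤ r binom (m + 1, 2)`.
-/

namespace Pool.Agent.Results.MP_e6aa12_ag.AtMostOneForm

open Polynomial

universe u

/-- The forms of degree `d` in three variables whose dehomogenisation lies in the ideal
`(y - ∑ a_j x ^ j, (x - c) ^ r) ^ m` of `k[x][y]`. -/
noncomputable def forms {k : Type u} [Field k] {r : ℕ} (m : ℕ) (c : k) (a : Fin r → k) (d : ℕ) :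
    Submodule k (MvPolynomial (Fin 3) k) :=
  MvPolynomial.homogeneousSubmodule (Fin 3) k d ⊓
    (Submodule.restrictScalars k
      ((Ideal.span {X - C (∑ j : Fin r, C (a j) * X ^ (j : ℕ)), C ((X - C c) ^ r)} :
        Ideal k[X][X]) ^ m)).comap
      (MvPolynomial.aeval ![C X, X, 1] :
        MvPolynomial (Fin 3) k →ₐ[k] k[X][X]).toLinearMap

/-- The space of forms has the expected dimension. -/
def Expected {k : Type u} [Field k] {r : ℕ} (m : ℕ) (c : k) (a : Fin r → k) (d : ℕ) : Prop :=
  Module.finrank k (forms m c a d) = Nat.choose (d + 2) 2 - r * Nat.choose (m + 1) 2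

/-- The expected dimension is zero and the dimension is one, and `d` is divisible by three and lies in
a short window. -/
def OneInsteadOfZero {k : Type u} [Field k] {r : ℕ} (m : ℕ) (c : k) (a : Fin r → k) (d : ℕ) : Prop :=
  3 ∣ d ∧ Real.sqrt r * m < d ∧ 2 * (d : ℝ) + 3 < Real.sqrt r * (2 * m + 1) ∧
    Nat.choose (d + 2) 2 ≤ r * Nat.choose (m + 1) 2 ∧ Module.finrank k (forms m c a d) = 1

theorem result (r : ℕ) (hr : r = 11 ∨ r = 13) (m : ℕ) (k : Type u) [Field k] :
    ∃ F : MvPolynomial (Fin (r + 1)) k, F ≠ 0 ∧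
      ∀ (c : k) (a : Fin r → k), MvPolynomial.eval (Fin.cons c a : Fin (r + 1) → k) F ≠ 0 →
        (∀ d : ℕ, d ≠ ⌊Real.sqrt r * m⌋₊ + 1 → Expected m c a d) ∧
        (Expected m c a (⌊Real.sqrt r * m⌋₊ + 1) ∨
          OneInsteadOfZero m c a (⌊Real.sqrt r * m⌋₊ + 1)) := by
  have key : ∃ F : MvPolynomial (Fin (r + 1)) k, F ≠ 0 ∧
      ∀ (c : k) (a : Fin r → k), MvPolynomial.eval (Fin.cons c a : Fin (r + 1) → k) F ≠ 0 →
        ∀ d : ℕ, Expected m c a d ∨ OneInsteadOfZero m c a d := by
    rcases hr with rfl | rfl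
    · exact Pool.Agent.X157.E.coll11 k
    · exact Pool.Agent.X157.E.coll13 k
  obtain ⟨F, hF, hF'⟩ := key
  refine ⟨F, hF, fun c a hc => ⟨fun d hd => ?_, hF' c a hc _⟩⟩
  rcases hF' c a hc d with h | ⟨_, h1, h2, _⟩
  · exact h
  exfalso
  apply hd
  have h4 : Real.sqrt r < 4 := by
    rw [Real.sqrt_lt' (by norm_num)]
    rcases hr with rfl | rfl <;> norm_num
  have h0 : 0 ≤ Real.sqrt r * m := by positivity
  have h3 : ⌊Real.sqrt r * m⌋₊ < d := (Nat.floor_lt h0).2 h1
  have h5 : (d : ℝ) - 1 < Real.sqrt r * m := by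
    have : Real.sqrt r * (2 * (m : ℝ) + 1) = 2 * (Real.sqrt r * m) + Real.sqrt r := by ring
    linarith
  have h6 : d - 1 ≤ ⌊Real.sqrt r * m⌋₊ := by
    apply Nat.le_floor
    rw [Nat.cast_sub (by omega)]
    push_cast
    exact h5.le
  omega

end Pool.Agent.Results.MP_e6aa12_ag.AtMostOneForm
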