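import Mathlib
import Pool.Agent.Results.MP_e6aa12_ag.EveryNumberOfPoints
import Pool.Agent.TH885.NW.Exp2
import Pool.Agent.X134.UD.Seq
import Pool.Agent.X134.UD.Sparse
import Pool.Agent.X134.UD.Primes

set_option autoImplicit false

/-!
# General collisions of `r` fat points along squares, primes and sparse sequences of multiplicities

Let `r ≥ 10`. The starting result `EveryNumberOfPoints` bounds by
`bad r = (min (√r - 3) (2 / 3 + 9 / (4 √r)) + min (√r - 3) (2 / 3 + 1 / (4 √r))) / 2 < 1` the upper density of the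
multiplicities `m` for which the subscheme with ideal
`(y - (a₀ + a₁ x + ... + a_(r-1) x ^ (r-1)), (x - c) ^ r) ^ m` (`(c, a)` outside a hypersurface) has not the expected
dimension in some degree, and by `ε` for `r ≥ r0(ε)`. Here the same bounds hold

* along EVERY sequence `m = x_n` for which the Weyl sums of `√r x_n` are `o(N)`;
* for the values of EVERY nonconstant integral polynomial (the squares, the cubes, ...);
* for the PRIMES (the density is taken among the primes);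
* for the sequences `⌊α n ^ c⌋`, `c > 1`, which are arbitrarily sparse: for all `α > 0` outside one set `E` of
  Hausdorff dimension less than `1`, for all `r` at once.

(For perfect squares `r` there are no exceptions at all.)

Proof. An exceptional `m` has an integer within a bounded distance from `√r m + (√r - 3) / 2`; Weyl's criterion,
Weyl's theorem for polynomials, Vinogradov's theorem (`√r` is badly approximable) and the covering argument.
-/

namespace Pool.Agent.Results.MP_e6aa12_ag.SparseMultiplicities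

open EveryNumberOfPoints Pool.Agent.X134.UD
open Pool.Agent.H534R3.UDist (Weyl)

universe u

/-- `m` is exceptional: the ideals have not the expected dimension in some degree -/
def Bad (r m : ℕ) : Prop := ¬ Expected.{u} r m Set.univ

/-- The bound for the proportion of the exceptional multiplicities. -/
noncomputable def bad (r : ℕ) : ℝ :=
  (min (Real.sqrt r - 3) (2 / 3 + 9 / (4 * Real.sqrt r)) +
    min (Real.sqrt r - 3) (2 / 3 + 1 / (4 * Real.sqrt r))) / 2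

theorem square {r : ℕ} (hr : 10 ≤ r) (hsq : IsSquare r) (m : ℕ) : ¬ Bad.{u} r m := by
  intro h
  apply h
  intro k _ _
  obtain ⟨F, hF, hF'⟩ := Pool.Agent.TH183.QS.coll_start (m := m) hr (Or.inr hsq) k
  exact ⟨F, hF, fun c a hc d _ => hF' c a hc d⟩

theorem window_all {r : ℕ} (hr : 10 ≤ r) (m : ℕ) (h : Bad.{u} r m) :
    ∃ D : ℤ, Real.sqrt r * m + (Real.sqrt r - 3) / 2 - TH885.NW.loW r / 2 ≤ D ∧
      (D : ℝ) ≤ Real.sqrt r * m + (Real.sqrt r - 3) / 2 + TH885.NW.upW r / 2 := by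
  by_contra hcon
  push Not at hcon
  apply h
  intro k _ _
  obtain ⟨F, hF, hF'⟩ := Pool.Agent.TH183.QS.coll_every hr m k
  refine ⟨F, hF, fun c a hc d _ => hF' c a hc d ?_⟩
  show (d : ℝ) < Real.sqrt r * m ∨ Real.sqrt r * (m + 1) < d + 3 ∨
    2 * (d : ℝ) + 3 + (2 / 3 + 9 / (4 * Real.sqrt r)) < Real.sqrt r * (2 * m + 1) ∨
    Real.sqrt r * (2 * m + 1) + (2 / 3 + 1 / (4 * Real.sqrt r)) < 2 * d + 3
  by_contra hd
  push Not at hd
  obtain ⟨d1, d2, d3, d4⟩ := hd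
  have h1 : Real.sqrt r * m + (Real.sqrt r - 3) / 2 - TH885.NW.loW r / 2 ≤ ((d : ℤ) : ℝ) := by
    rw [Int.cast_natCast]
    unfold TH885.NW.loW
    rcases min_choice (Real.sqrt r - 3) (2 / 3 + 9 / (4 * Real.sqrt r)) with h | h <;> rw [h] <;>
      linarith
  have h2 := hcon _ h1
  rw [Int.cast_natCast] at h2
  unfold TH885.NW.upW at h2
  rcases min_choice (Real.sqrt r - 3) (2 / 3 + 1 / (4 * Real.sqrt r)) with h | h <;>
    rw [h] at h2 <;> linarith

theorem window_large (β : ℝ) (hβ : 0 < β) : ∃ r0 : ℕ, ∀ r : ℕ, r0 ≤ r → ∀ m : ℕ, Bad.{u} r m →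
    ∃ D : ℤ, Real.sqrt r * m + (Real.sqrt r - 3) / 2 - β / 2 ≤ D ∧
      (D : ℝ) ≤ Real.sqrt r * m + (Real.sqrt r - 3) / 2 + β / 2 := by
  obtain ⟨N, hN10, H⟩ := Pool.Agent.TH183.QS.coll_large.{u} hβ
  refine ⟨N, fun r hr m h => ?_⟩
  by_contra hcon
  push Not at hcon
  apply h
  intro k _ _
  obtain ⟨F, hF, hF'⟩ := H r hr m k
  refine ⟨F, hF, fun c a hc d _ => hF' c a hc d ?_⟩
  show β ≤ |2 * (d : ℝ) + 3 - Real.sqrt r - 2 * (Real.sqrt r * m)|
  rw [le_abs]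
  have h2 := hcon (d : ℤ)
  push_cast at h2
  rcases le_or_gt (-β) (2 * (d : ℝ) + 3 - Real.sqrt r - 2 * (Real.sqrt r * m)) with h4 | h4
  · left
    have := h2 (by linarith)
    linarith
  · right
    linarith

theorem upperLE_mono {P : ℕ → Prop} {a b : ℝ} (hab : a ≤ b) (h : UpperLE P a) : UpperLE P b := by
  intro δ hδ
  obtain ⟨N₀, hN₀⟩ := h δ hδ
  refine ⟨N₀, fun N hN => (hN₀ N hN).trans ?_⟩
  exact mul_le_mul_of_nonneg_right (by linarith) (Nat.cast_nonneg N)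

theorem upperLEPrimes_mono {P : ℕ → Prop} {a b : ℝ} (hab : a ≤ b) (h : UpperLEPrimes P a) :
    UpperLEPrimes P b := by
  intro δ hδ
  obtain ⟨N₀, hN₀⟩ := h δ hδ
  refine ⟨N₀, fun N hN => (hN₀ N hN).trans ?_⟩
  exact mul_le_mul_of_nonneg_right (by linarith) (Nat.cast_nonneg _)

theorem upperLE_empty {P : ℕ → Prop} {β : ℝ} (hβ : 0 < β) (h : ∀ n, ¬ P n) : UpperLE P β := by
  intro δ hδ
  refine ⟨0, fun N _ => ?_⟩
  have e : {n : ℕ | n < N ∧ P n} = ∅ := by
    rw [Set.eq_empty_iff_forall_notMem]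
    rintro n ⟨-, hn⟩
    exact h n hn
  rw [e, Set.ncard_empty, Nat.cast_zero]
  exact mul_nonneg (by linarith) (Nat.cast_nonneg _)

theorem upperLEPrimes_empty {P : ℕ → Prop} {β : ℝ} (hβ : 0 < β) (h : ∀ n, ¬ P n) :
    UpperLEPrimes P β := by
  intro δ hδ
  refine ⟨0, fun N _ => ?_⟩
  have e : {p : ℕ | p ≤ N ∧ p.Prime ∧ P p} = ∅ := by
    rw [Set.eq_empty_iff_forall_notMem]
    rintro n ⟨-, -, hn⟩
    exact h n hn
  rw [e, Set.ncard_empty, Nat.cast_zero]
  exact mul_nonneg (by linarith) (Nat.cast_nonneg _)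

theorem bad_eq (r : ℕ) : bad r = TH885.NW.loW r / 2 + TH885.NW.upW r / 2 := by
  unfold bad TH885.NW.loW TH885.NW.upW
  ring

theorem result : ∃ r0 : ℝ → ℕ,
    (∀ r : ℕ, 10 ≤ r → ∀ β : ℝ, 0 < β → bad r ≤ β ∨ r0 β ≤ r →
      (∀ x : ℕ → ℕ, Weyl (fun n => Real.sqrt r * x n) → UpperLE (fun n => Bad.{u} r (x n)) β) ∧
      (∀ P : Polynomial ℤ, 1 ≤ P.natDegree →
        UpperLE (fun n => ∃ m : ℕ, (m : ℤ) = P.eval (n : ℤ) ∧ Bad.{u} r m) β) ∧
      UpperLEPrimes (Bad.{u} r) β) ∧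
    (∀ c : ℝ, 1 < c → ∃ κ : ℝ, 0 < κ ∧ κ < 1 ∧ ∃ E : Set ℝ, dimH E ≤ ENNReal.ofReal (1 - κ) ∧
      ∀ α : ℝ, 0 < α → α ∉ E → ∀ r : ℕ, 10 ≤ r →
      ∀ β : ℝ, 0 < β → bad r ≤ β ∨ r0 β ≤ r → UpperLE (fun n => Bad.{u} r ⌊α * (n : ℝ) ^ c⌋₊) β) ∧
    (∀ r : ℕ, 10 ≤ r → bad r < 1) := by
  classical
  have hw : ∀ β : ℝ, ∃ r0 : ℕ, 0 < β → ∀ r : ℕ, r0 ≤ r → ∀ m : ℕ, Bad.{u} r m →
      ∃ D : ℤ, Real.sqrt r * m + (Real.sqrt r - 3) / 2 - β / 2 ≤ D ∧
        (D : ℝ) ≤ Real.sqrt r * m + (Real.sqrt r - 3) / 2 + β / 2 := fun β => by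
    by_cases hβ : 0 < β
    · obtain ⟨r0, h⟩ := window_large.{u} β hβ
      exact ⟨r0, fun _ => h⟩
    · exact ⟨0, fun h => absurd h hβ⟩
  choose r0 hr0 using hw
  have main : ∀ r : ℕ, 10 ≤ r → ∀ β : ℝ, 0 < β → bad r ≤ β ∨ r0 β ≤ r →
      ((∀ x : ℕ → ℕ, Weyl (fun n => Real.sqrt r * x n) → UpperLE (fun n => Bad.{u} r (x n)) β) ∧
      (∀ P : Polynomial ℤ, 1 ≤ P.natDegree →
        UpperLE (fun n => ∃ m : ℕ, (m : ℤ) = P.eval (n : ℤ) ∧ Bad.{u} r m) β) ∧
      UpperLE (Bad.{u} r) β) ∧ UpperLEPrimes (Bad.{u} r) β := by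
    intro r hr β hβ hor
    by_cases hsq : IsSquare r
    · have h0 := square.{u} hr hsq
      exact ⟨⟨fun x _ => upperLE_empty hβ fun n => h0 _,
        fun P _ => upperLE_empty hβ fun n => by rintro ⟨m, -, hm⟩; exact h0 m hm,
        upperLE_empty hβ h0⟩, upperLEPrimes_empty hβ h0⟩
    have hirr : Irrational (Real.sqrt r) := irrational_sqrt_natCast_iff.2 hsq
    rcases hor with h | h
    · obtain ⟨h1, h2, h3⟩ := TH885.NW.win_len hr
      have hab : 0 ≤ TH885.NW.loW r / 2 + TH885.NW.upW r / 2 := by linarith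
      have hle : TH885.NW.loW r / 2 + TH885.NW.upW r / 2 ≤ β := by rw [← bad_eq]; exact h
      obtain ⟨a1, a2, a3⟩ := sequences hirr hab (Bad.{u} r) (window_all hr)
      exact ⟨⟨fun x hx => upperLE_mono hle (a1 x hx), fun P hP => upperLE_mono hle (a2 P hP),
        upperLE_mono hle a3⟩,
        upperLEPrimes_mono hle (primes (badly_sqrt hsq) hab (Bad.{u} r) (window_all hr))⟩
    · have hab : 0 ≤ β / 2 + β / 2 := by linarith
      have hle : β / 2 + β / 2 ≤ β := by linarith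
      obtain ⟨a1, a2, a3⟩ := sequences hirr hab (Bad.{u} r) (hr0 β hβ r h)
      exact ⟨⟨fun x hx => upperLE_mono hle (a1 x hx), fun P hP => upperLE_mono hle (a2 P hP),
        upperLE_mono hle a3⟩,
        upperLEPrimes_mono hle (primes (badly_sqrt hsq) hab (Bad.{u} r) (hr0 β hβ r h))⟩
  refine ⟨r0, fun r hr β hβ hor => ?_, fun c hc => ?_, fun r hr => ?_⟩
  · obtain ⟨⟨a1, a2, -⟩, a4⟩ := main r hr β hβ hor
    exact ⟨a1, a2, a4⟩
  · obtain ⟨κ, hκ0, hκ1, H⟩ := sparse c hc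
    obtain ⟨E, hE, hh⟩ := H ℕ Bad.{u}
    exact ⟨κ, hκ0, hκ1, E, hE, fun α hα hαE r hr β hβ hor =>
      hh α hα hαE r β hβ.le (main r hr β hβ hor).1.2.2⟩
  · obtain ⟨h1, h2, h3⟩ := TH885.NW.win_len hr
    rw [bad_eq]
    linarith

end Pool.Agent.Results.MP_e6aa12_ag.SparseMultiplicities
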